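import Mathlib

/-! # FRD Arith: two Moebius sums -/

set_option autoImplicit false

namespace Pool.Agent.FRD

open ArithmeticFunction

lemma sum_moebius_div (n : ℕ) (hn : 0 < n) :
    ∑ d ∈ n.divisors, (ArithmeticFunction.moebius d : ℝ) * (1 / (d : ℝ)) =
      (n.totient : ℝ) / n := by
  have h := (ArithmeticFunction.sum_eq_iff_sum_mul_moebius_eq (R := ℝ)
    (f := fun n => (n.totient : ℝ)) (g := fun n => (n : ℝ))).1
    (fun n _ => by exact_mod_cast Nat.sum_totient n) n hn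
  have h2 := Nat.sum_divisorsAntidiagonal
    (fun x y => (ArithmeticFunction.moebius x : ℝ) * (y : ℝ)) (n := n)
  rw [h2] at h
  rw [← h, Finset.sum_div]
  refine Finset.sum_congr rfl fun d hd => ?_
  have hd' := Nat.dvd_of_mem_divisors hd
  have hd0 : (d : ℝ) ≠ 0 := by
    have := Nat.pos_of_mem_divisors hd
    positivity
  have hn0 : (n : ℝ) ≠ 0 := by positivity
  rw [Nat.cast_div hd' hd0]
  field_simp

lemma sum_moebius_gcd (n k : ℕ) (hn : 0 < n) :
    ∑ d ∈ n.divisors, (if d ∣ k then (ArithmeticFunction.moebius d : ℝ) else 0) =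
      if k.gcd n = 1 then 1 else 0 := by
  rw [← Finset.sum_filter]
  have h1 : n.divisors.filter (fun d => d ∣ k) = (k.gcd n).divisors := by
    ext d
    simp only [Finset.mem_filter, Nat.mem_divisors, Nat.dvd_gcd_iff]
    constructor
    · rintro ⟨⟨h, _⟩, h'⟩
      exact ⟨⟨h', h⟩, fun h0 => hn.ne' (Nat.eq_zero_of_gcd_eq_zero_right h0)⟩
    · rintro ⟨⟨h, h'⟩, _⟩
      exact ⟨⟨h', hn.ne'⟩, h⟩
  rw [h1]
  have h2 := DFunLike.congr_fun ArithmeticFunction.moebius_mul_coe_zeta (k.gcd n)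
  rw [ArithmeticFunction.coe_mul_zeta_apply, ArithmeticFunction.one_apply] at h2
  have h3 : ((∑ d ∈ (k.gcd n).divisors, ArithmeticFunction.moebius d : ℤ) : ℝ) =
      ((if k.gcd n = 1 then 1 else 0 : ℤ) : ℝ) := by rw [h2]
  push_cast at h3
  rw [h3]

lemma abs_moebius_real (d : ℕ) : |(ArithmeticFunction.moebius d : ℝ)| ≤ 1 := by
  have h := ArithmeticFunction.abs_moebius_le_one (n := d)
  exact_mod_cast h

/-- powers in a cyclic group -/
lemma pow_mem_zpowers_pow {G : Type*} [Group G] (g : G) (d k : ℕ) (hd : d ∣ orderOf g) :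
    g ^ k ∈ Subgroup.zpowers (g ^ d) ↔ d ∣ k := by
  constructor
  · rintro ⟨j, hj⟩
    have hj' : (g ^ d) ^ j = g ^ k := hj
    have h1 : g ^ ((d : ℤ) * j - k) = 1 := by
      rw [zpow_sub, zpow_mul, zpow_natCast, zpow_natCast, hj', mul_inv_cancel]
    have h2 : (orderOf g : ℤ) ∣ (d : ℤ) * j - k := orderOf_dvd_iff_zpow_eq_one.2 h1
    have h3 : (d : ℤ) ∣ (d : ℤ) * j - k := (Int.natCast_dvd_natCast.2 hd).trans h2
    have h4 : (d : ℤ) ∣ (k : ℤ) := by
      have := dvd_sub (dvd_mul_right (d : ℤ) j) h3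
      simpa using this
    exact_mod_cast h4
  · rintro ⟨c, rfl⟩
    rw [pow_mul]
    exact Subgroup.pow_mem _ (Subgroup.mem_zpowers _) c

end Pool.Agent.FRD
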