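import Mathlib
import Pool.Agent.ARC.SNot
import Pool.Agent.ARC.WTow
import Pool.Agent.ARC.WUnr

/-! # FRD Split: densities of primes split in a Galois extension -/

set_option autoImplicit false
set_option linter.unusedSectionVars false

noncomputable section

namespace Pool.Agent.FRD

open Filter Topology NumberField nonZeroDivisors IsDedekindDomain Module Pool.Agent.Helper4
  Pool.Agent.ARC

open scoped Classical Pointwise

section

variable {E L : Type} [Field E] [NumberField E] [Field L] [NumberField L] [Algebra E L]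

lemma fdeg_smulP [IsGalois E L] (g : L ≃ₐ[E] L) (Q : PK L) : fdeg E (smulP g Q) = fdeg E Q :=
  Ideal.inertiaDeg_smul (𝓞 E) Q.asIdeal g

lemma Np_smulP [IsGalois E L] (g : L ≃ₐ[E] L) (Q : PK L) : Np (smulP g Q) = Np Q := by
  rw [← Np_below_pow E (smulP g Q), fdeg_smulP, below_smulP, Np_below_pow]

lemma mem_below_iff (m : ℕ) (Q : PK L) :
    (m : 𝓞 L) ∈ Q.asIdeal ↔ (m : 𝓞 E) ∈ (below E Q).asIdeal := by
  rw [below_asIdeal, Ideal.under_def, Ideal.mem_comap, map_natCast]

/-- In a Galois extension the good primes with a prime of degree one above them have density at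
most `1 / [L : E]`. -/
theorem densLE_degOne [IsGalois E L] (m : ℕ) (hU : Unr E L m) :
    DensLE {q : PK E | (m : 𝓞 E) ∉ q.asIdeal ∧ q ∈ degOne E L} (1 / (finrank E L : ℝ)) := by
  refine densLE_of_split (L := L) finrank_pos ?_
  rintro q ⟨hmq, Q, hbel, hNQ⟩
  have hmQ : (m : 𝓞 L) ∉ Q.asIdeal := by
    rw [mem_below_iff (E := E), hbel]
    exact hmq
  have hfin : Finite {Q : PK L // below E Q = q ∧ Np Q = Np q} := by
    let i : {Q : PK L // below E Q = q ∧ Np Q = Np q} → {Q : PK L // below E Q = q} :=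
      fun Q => ⟨Q.1, Q.2.1⟩
    refine Finite.of_injective i ?_
    intro Q Q' h
    have h' : (i Q).1 = (i Q').1 := congrArg Subtype.val h
    exact Subtype.ext h'
  let f : (L ≃ₐ[E] L) → {Q : PK L // below E Q = q ∧ Np Q = Np q} :=
    fun g => ⟨smulP g Q, by rw [below_smulP, hbel], by rw [Np_smulP, hNQ]⟩
  have hf : Function.Injective f := by
    intro g g' hgg
    have h1 : g • Q.asIdeal = g' • Q.asIdeal :=
      congrArg (fun R : {Q : PK L // below E Q = q ∧ Np Q = Np q} => R.1.asIdeal) hgg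
    have h2 : (g⁻¹ * g') • Q.asIdeal = Q.asIdeal := by
      rw [mul_smul, ← h1, inv_smul_smul]
    have h3 : g⁻¹ * g' = 1 := by
      apply hU Q.asIdeal Q.isPrime hmQ
      intro x
      obtain ⟨y, hy⟩ := exists_sub_mem (E := E) Q (by rw [hbel]; exact hNQ) x
      have h4 : (g⁻¹ * g') • (x - algebraMap (𝓞 E) (𝓞 L) y) ∈ Q.asIdeal := by
        have h5 := Ideal.smul_mem_pointwise_smul (g⁻¹ * g') _ Q.asIdeal hy
        rwa [h2] at h5
      have h6 : (g⁻¹ * g') • x - x = (g⁻¹ * g') • (x - algebraMap (𝓞 E) (𝓞 L) y)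
          - (x - algebraMap (𝓞 E) (𝓞 L) y) := by
        rw [smul_sub, smul_algebraMap]
        ring
      rw [h6]
      exact Q.asIdeal.sub_mem h4 hy
    exact (inv_mul_eq_one.mp h3)
  calc finrank E L = Nat.card (L ≃ₐ[E] L) := (IsGalois.card_aut_eq_finrank E L).symm
    _ ≤ _ := Nat.card_le_card_of_injective f hf

theorem densGE_degOne' (m : ℕ) (hm : m ≠ 0) :
    DensGE {q : PK E | (m : 𝓞 E) ∉ q.asIdeal ∧ q ∈ degOne E L} (1 / (finrank E L : ℝ)) := by
  refine (densGE_degOne (K := E) (L := L)).of_subset_union ?_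
    (negligible_of_finite (finite_contain (K := E) hm))
  intro q hq
  by_cases h : (m : 𝓞 E) ∈ q.asIdeal
  · exact Or.inr h
  · exact Or.inl ⟨h, hq⟩

/-- the sum over the good primes with a prime of degree one above them -/
theorem pS_degOne [IsGalois E L] (m : ℕ) (hm : m ≠ 0) (hU : Unr E L m) :
    ∃ C : ℝ, ∀ s : ℝ, 1 < s → s ≤ 2 →
      |pS {q : PK E | (m : 𝓞 E) ∉ q.asIdeal ∧ q ∈ degOne E L} s -
        1 / (finrank E L : ℝ) * Real.log (1 / (s - 1))| ≤ C := by
  obtain ⟨C, hC⟩ := densLE_degOne (E := E) (L := L) m hU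
  obtain ⟨C', hC'⟩ := densGE_degOne' (E := E) (L := L) m hm
  refine ⟨max C C', fun s hs hs2 => ?_⟩
  have h1 := hC s hs hs2
  have h2 := hC' s hs hs2
  have h3 := le_max_left C C'
  have h4 := le_max_right C C'
  rw [abs_le]
  constructor <;> linarith

end

end Pool.Agent.FRD
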