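import Mathlib
import Pool.Agent.FRD.Split
import Pool.Agent.FRD.Arith

/-! # FRD Cyc: Frobenius elements in cyclic extensions -/

set_option autoImplicit false
set_option linter.unusedSectionVars false

noncomputable section

namespace Pool.Agent.FRD

open Filter Topology NumberField nonZeroDivisors IsDedekindDomain Module Pool.Agent.Helper4
  Pool.Agent.ARC

open scoped Classical Pointwise

section

variable (F L : Type) [Field F] [NumberField F] [Field L] [NumberField L] [Algebra F L]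
  [IsGalois F L]

/-- In an abelian extension, a good prime has a prime of degree one above it in the intermediate
field `E` if and only if its Frobenius element fixes `E`. -/
theorem degOne_iff (hc : ∀ σ τ : L ≃ₐ[F] L, σ * τ = τ * σ) (E : IntermediateField F L) (m : ℕ)
    (hU : Unr F L m) (q : PK F) (Q : Ideal (𝓞 L)) (hQ : Q.IsPrime) (hm : (m : 𝓞 F) ∉ q.asIdeal)
    (hQq : Q.under (𝓞 F) = q.asIdeal) (σ : L ≃ₐ[F] L) (hσ : IsFrob F L Q σ) :
    q ∈ degOne F E ↔ σ ∈ E.fixingSubgroup := by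
  have hmem : ∀ R : Ideal (𝓞 L), R.under (𝓞 F) = q.asIdeal → (m : 𝓞 L) ∉ R := by
    intro R hR h
    apply hm
    rw [← hR, Ideal.under_def, Ideal.mem_comap, map_natCast]
    exact h
  have h2q : 2 ≤ Ideal.absNorm q.asIdeal := by
    have h := two_le_Np q
    unfold Np at h
    exact_mod_cast h
  constructor
  · rintro ⟨R, hR, hN⟩
    obtain ⟨Q', hQ', hQR⟩ := prime_above E L R.asIdeal R.isPrime
    have hR' : R.asIdeal.under (𝓞 F) = q.asIdeal := congrArg HeightOneSpectrum.asIdeal hR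
    have hQ'q : Q'.under (𝓞 F) = q.asIdeal := by
      rw [← under_under F E L, hQR, hR']
    obtain ⟨t, ht⟩ := frob_trans F L Q Q' hQ hQ' (hQq.trans hQ'q.symm)
    have hconj := (frob_conj F L Q hQ σ hσ Q' t ht).2
    have hts : t * σ * t⁻¹ = σ := by rw [hc t σ, mul_inv_cancel_right]
    rw [hts] at hconj
    have hQ0 : Q' ≠ ⊥ := frob_ne_bot F L Q' σ hconj
    obtain ⟨h, hh⟩ := frob_exists E L Q' hQ' hQ0
    obtain ⟨f, hf, h1, h2, -, -⟩ := frob_tower F E L m hU Q' hQ' (hmem Q' hQ'q) σ hconj h hh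
    have hN' : Ideal.absNorm R.asIdeal = Ideal.absNorm q.asIdeal := by
      unfold Np at hN
      exact_mod_cast hN
    rw [hQR, hQ'q, hN'] at h2
    have h3 : f = 1 := by
      have h4 : Ideal.absNorm q.asIdeal ^ 1 = Ideal.absNorm q.asIdeal ^ f := by
        rw [pow_one]
        exact h2
      exact (Nat.pow_right_injective h2q h4).symm
    rw [h3, pow_one] at h1
    rw [← h1]
    rw [IntermediateField.mem_fixingSubgroup_iff]
    intro x hx
    exact h.commutes ⟨x, hx⟩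
  · intro hσE
    have hQ0 : Q ≠ ⊥ := frob_ne_bot F L Q σ hσ
    obtain ⟨h, hh⟩ := frob_exists E L Q hQ hQ0
    obtain ⟨f, hf, -, h2, -, h4⟩ := frob_tower F E L m hU Q hQ (hmem Q hQq) σ hσ h hh
    have h5 : f ∣ 1 := by
      refine h4 1 ⟨IntermediateField.fixingSubgroupEquiv E ⟨σ, hσE⟩, ?_⟩
      rw [pow_one]
      ext x
      rfl
    have h6 : f = 1 := Nat.dvd_one.1 h5
    rw [h6, pow_one] at h2
    refine ⟨below E (⟨Q, hQ, hQ0⟩ : PK L), ?_, ?_⟩
    · apply HeightOneSpectrum.ext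
      change (Q.under (𝓞 E)).under (𝓞 F) = q.asIdeal
      rw [under_under, hQq]
    · unfold Np
      rw [below_asIdeal]
      change ((Ideal.absNorm (Q.under (𝓞 E)) : ℕ) : ℝ) = _
      rw [h2, hQq]

/-- The fixed field of `g ^ d`. -/
abbrev cE (g : L ≃ₐ[F] L) (d : ℕ) : IntermediateField F L :=
  IntermediateField.fixedField (Subgroup.zpowers (g ^ d))

variable {F L}

lemma cyc_comm (g : L ≃ₐ[F] L) (hg : ∀ σ, σ ∈ Subgroup.zpowers g) (σ τ : L ≃ₐ[F] L) :
    σ * τ = τ * σ := by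
  obtain ⟨a, rfl⟩ := hg σ
  obtain ⟨b, rfl⟩ := hg τ
  exact (Commute.refl g).zpow_zpow a b

lemma finrank_cE (g : L ≃ₐ[F] L) (hg : ∀ σ, σ ∈ Subgroup.zpowers g) (d : ℕ)
    (hd : d ∣ orderOf g) : finrank F (cE F L g d) = d := by
  have hpos : 0 < orderOf g := orderOf_pos g
  have h1 := Module.finrank_mul_finrank F (cE F L g d) L
  have h2 : finrank (cE F L g d) L = orderOf g / d := by
    rw [IntermediateField.finrank_fixedField_eq_card, Nat.card_zpowers,
      orderOf_pow_of_dvd (Nat.pos_of_dvd_of_pos hd hpos).ne' hd]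
  have h3 : finrank F L = orderOf g := by
    rw [← IsGalois.card_aut_eq_finrank F L, orderOf_eq_card_of_forall_mem_zpowers hg]
  rw [h2, h3] at h1
  have h4 : 0 < orderOf g / d := Nat.div_pos (Nat.le_of_dvd hpos hd)
    (Nat.pos_of_dvd_of_pos hd hpos)
  have h5 : d * (orderOf g / d) = orderOf g := Nat.mul_div_cancel' hd
  exact Nat.eq_of_mul_eq_mul_right h4 (h1.trans h5.symm)

lemma galois_cE (g : L ≃ₐ[F] L) (hg : ∀ σ, σ ∈ Subgroup.zpowers g) (d : ℕ) :
    IsGalois F (cE F L g d) := by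
  have hn : (Subgroup.zpowers (g ^ d)).Normal := by
    refine ⟨fun x hx y => ?_⟩
    rw [cyc_comm g hg y x, mul_inv_cancel_right]
    exact hx
  exact IsGalois.of_fixedField_normal_subgroup _

/-- a common modulus -/
lemma exists_mod (g : L ≃ₐ[F] L) (N : ℕ) (hN : N ≠ 0) :
    ∃ m : ℕ, m ≠ 0 ∧ N ∣ m ∧ Unr F L m ∧ ∀ d ∈ (orderOf g).divisors, Unr F (cE F L g d) m := by
  obtain ⟨m₀, hm₀, hN₀, hU₀⟩ := exists_unr F L N hN
  have h : ∀ d : ℕ, ∃ m : ℕ, m ≠ 0 ∧ Unr F (cE F L g d) m := by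
    intro d
    obtain ⟨m, h1, -, h2⟩ := exists_unr F (cE F L g d) 1 one_ne_zero
    exact ⟨m, h1, h2⟩
  choose m hm hU using h
  refine ⟨m₀ * ∏ d ∈ (orderOf g).divisors, m d, ?_, hN₀.mul_right _, ?_, ?_⟩
  · exact mul_ne_zero hm₀ (Finset.prod_ne_zero_iff.2 fun d _ => hm d)
  · exact unr_mono F L _ _ (dvd_mul_right _ _) hU₀
  · intro d hd
    exact unr_mono F _ _ _ ((Finset.dvd_prod_of_mem m hd).mul_left _) (hU d)

/-- In a cyclic extension there are infinitely many primes whose Frobenius element generates the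
Galois group. -/
theorem frob_cyclic_dens (g : L ≃ₐ[F] L) (hg : ∀ σ, σ ∈ Subgroup.zpowers g) (N : ℕ) (hN : N ≠ 0) :
    ∃ m : ℕ, m ≠ 0 ∧ N ∣ m ∧ Unr F L m ∧
      DensGE {q : PK F | (m : 𝓞 F) ∉ q.asIdeal ∧ ∃ Q : Ideal (𝓞 L), Q.IsPrime ∧
        Q.under (𝓞 F) = q.asIdeal ∧ ∃ σ : L ≃ₐ[F] L, IsFrob F L Q σ ∧ g ∈ Subgroup.zpowers σ}
        (((orderOf g).totient : ℝ) / orderOf g) := by
  have hpos : 0 < orderOf g := orderOf_pos g
  obtain ⟨m, hm, hNm, hU, hUd⟩ := exists_mod g N hN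
  refine ⟨m, hm, hNm, hU, ?_⟩
  -- the exponent of the Frobenius element
  have hk : ∀ q : PK F, ∃ k : ℕ, ∃ Q : Ideal (𝓞 L), Q.IsPrime ∧
      Q.under (𝓞 F) = q.asIdeal ∧ IsFrob F L Q (g ^ k) := by
    intro q
    obtain ⟨Q, hQ, hQq⟩ := prime_above F L q.asIdeal q.isPrime
    have hQ0 : Q ≠ ⊥ := by
      rintro rfl
      apply q.ne_bot
      rw [← hQq, Ideal.under_def]
      exact Ideal.comap_bot_of_injective _ (FaithfulSMul.algebraMap_injective (𝓞 F) (𝓞 L))
    obtain ⟨σ, hσ⟩ := frob_exists F L Q hQ hQ0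
    obtain ⟨k, hk⟩ := (mem_powers_iff_mem_zpowers.2 (hg σ))
    have hk' : g ^ k = σ := hk
    exact ⟨k, Q, hQ, hQq, by rw [hk']; exact hσ⟩
  choose κ hκ using hk
  set T : Set (PK F) := {q | (m : 𝓞 F) ∉ q.asIdeal ∧ (κ q).gcd (orderOf g) = 1} with hT
  set Td : ℕ → Set (PK F) :=
    fun d => {q | (m : 𝓞 F) ∉ q.asIdeal ∧ q ∈ degOne F (cE F L g d)} with hTd
  have hmemd : ∀ d ∈ (orderOf g).divisors, ∀ q : PK F, (m : 𝓞 F) ∉ q.asIdeal →
      (q ∈ Td d ↔ d ∣ κ q) := by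
    intro d hd q hq
    obtain ⟨Q, hQ, hQq, hfr⟩ := hκ q
    have h1 := degOne_iff F L (cyc_comm g hg) (cE F L g d) m hU q Q hQ hq hQq _ hfr
    rw [IntermediateField.fixingSubgroup_fixedField,
      pow_mem_zpowers_pow g d (κ q) (Nat.dvd_of_mem_divisors hd)] at h1
    rw [← h1]
    exact ⟨fun h => h.2, fun h => ⟨hq, h⟩⟩
  have hind : ∀ (s : ℝ) (q : PK F), T.indicator (fun q => Np q ^ (-s)) q =
      ∑ d ∈ (orderOf g).divisors, (ArithmeticFunction.moebius d : ℝ) *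
        (Td d).indicator (fun q => Np q ^ (-s)) q := by
    intro s q
    by_cases hq : (m : 𝓞 F) ∈ q.asIdeal
    · have h1 : q ∉ T := fun h => h.1 hq
      rw [Set.indicator_of_notMem h1]
      symm
      refine Finset.sum_eq_zero fun d _ => ?_
      have h2 : q ∉ Td d := fun h => h.1 hq
      rw [Set.indicator_of_notMem h2, mul_zero]
    · have h1 : T.indicator (fun q => Np q ^ (-s)) q =
          (if (κ q).gcd (orderOf g) = 1 then 1 else 0) * Np q ^ (-s) := by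
        by_cases h : (κ q).gcd (orderOf g) = 1
        · have h2 : q ∈ T := ⟨hq, h⟩
          rw [Set.indicator_of_mem h2, if_pos h, one_mul]
        · have h2 : q ∉ T := fun h' => h h'.2
          rw [Set.indicator_of_notMem h2, if_neg h, zero_mul]
      rw [h1, ← sum_moebius_gcd (orderOf g) (κ q) hpos, Finset.sum_mul]
      refine Finset.sum_congr rfl fun d hd => ?_
      by_cases h : d ∣ κ q
      · rw [if_pos h, Set.indicator_of_mem ((hmemd d hd q hq).2 h)]
      · rw [if_neg h, Set.indicator_of_notMem (fun h' => h ((hmemd d hd q hq).1 h')), mul_zero,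
          zero_mul]
  have hpS : ∀ s : ℝ, 1 < s → pS T s =
      ∑ d ∈ (orderOf g).divisors, (ArithmeticFunction.moebius d : ℝ) * pS (Td d) s := by
    intro s hs
    unfold pS
    simp_rw [hind s]
    rw [Summable.tsum_finsetSum (fun d _ => (summable_pS (Td d) hs).mul_left _)]
    refine Finset.sum_congr rfl fun d _ => ?_
    rw [tsum_mul_left]
  have hC : ∀ d : ℕ, ∃ C : ℝ, d ∈ (orderOf g).divisors → ∀ s : ℝ, 1 < s → s ≤ 2 →
      |pS (Td d) s - 1 / (d : ℝ) * Real.log (1 / (s - 1))| ≤ C := by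
    intro d
    by_cases hd : d ∈ (orderOf g).divisors
    · have hG := galois_cE g hg d
      obtain ⟨C, hC⟩ := pS_degOne (E := F) (L := cE F L g d) m hm (hUd d hd)
      rw [finrank_cE g hg d (Nat.dvd_of_mem_divisors hd)] at hC
      exact ⟨C, fun _ => hC⟩
    · exact ⟨0, fun h => absurd h hd⟩
  choose C hC using hC
  have hdens : DensGE T (((orderOf g).totient : ℝ) / orderOf g) := by
    refine ⟨∑ d ∈ (orderOf g).divisors, C d, fun s hs hs2 => ?_⟩
    rw [hpS s hs, ← sum_moebius_div (orderOf g) hpos, Finset.sum_mul, ← Finset.sum_sub_distrib]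
    refine Finset.sum_le_sum fun d hd => ?_
    have h1 := hC d hd s hs hs2
    have h2 := abs_moebius_real d
    have h3 : |(ArithmeticFunction.moebius d : ℝ) *
        (pS (Td d) s - 1 / (d : ℝ) * Real.log (1 / (s - 1)))| ≤ C d := by
      rw [abs_mul]
      calc _ ≤ 1 * C d := mul_le_mul h2 h1 (abs_nonneg _) zero_le_one
        _ = C d := one_mul _
    have h4 := (abs_le.1 h3).1
    rw [mul_sub] at h4
    linarith
  refine hdens.mono ?_
  rintro q ⟨hq, hcop⟩
  obtain ⟨Q, hQ, hQq, hfr⟩ := hκ q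
  exact ⟨hq, Q, hQ, hQq, _, hfr, mem_zpowers_pow_iff.2 hcop⟩

theorem frob_cyclic (g : L ≃ₐ[F] L) (hg : ∀ σ, σ ∈ Subgroup.zpowers g) (N : ℕ) (hN : N ≠ 0) :
    ∃ Q : Ideal (𝓞 L), Q.IsPrime ∧ (N : 𝓞 L) ∉ Q ∧ ∃ σ : L ≃ₐ[F] L, IsFrob F L Q σ ∧
      g ∈ Subgroup.zpowers σ := by
  obtain ⟨m, hm, hNm, hU, hd⟩ := frob_cyclic_dens g hg N hN
  have hpos : (0 : ℝ) < ((orderOf g).totient : ℝ) / orderOf g := by
    have h1 : 0 < orderOf g := orderOf_pos g
    have h2 := Nat.totient_pos.2 h1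
    positivity
  obtain ⟨q, hq, Q, hQ, hQq, σ, hσ, hgσ⟩ := (infinite_of_densGE hpos hd).nonempty
  refine ⟨Q, hQ, fun hNQ => hq ?_, σ, hσ, hgσ⟩
  rw [← hQq, Ideal.under_def, Ideal.mem_comap, map_natCast]
  exact Ideal.mem_of_dvd Q (Nat.cast_dvd_cast hNm) hNQ

end

end Pool.Agent.FRD
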