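import Mathlib
import Pool.Agent.FRD.Cyc

/-! # FRD Fin: the density theorem of Frobenius for finite Galois extensions -/

set_option autoImplicit false
set_option linter.unusedSectionVars false

noncomputable section

namespace Pool.Agent.FRD

open NumberField nonZeroDivisors IsDedekindDomain Module Pool.Agent.ARC

/-- Every element of the Galois group of a finite Galois extension of number fields is a power of
a Frobenius element at a prime which does not contain a given integer. -/
theorem frob_finite (k L : Type) [Field k] [NumberField k] [Field L] [NumberField L] [Algebra k L]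
    [IsGalois k L] (γ : L ≃ₐ[k] L) (N : ℕ) (hN : N ≠ 0) :
    ∃ Q : Ideal (𝓞 L), Q.IsPrime ∧ (N : 𝓞 L) ∉ Q ∧ ∃ σ : L ≃ₐ[k] L, IsFrob k L Q σ ∧
      ∃ j : ℕ, σ ^ j = γ := by
  set F : IntermediateField k L := IntermediateField.fixedField (Subgroup.zpowers γ) with hF
  have hfix : F.fixingSubgroup = Subgroup.zpowers γ :=
    IntermediateField.fixingSubgroup_fixedField _
  have hγ : γ ∈ F.fixingSubgroup := by
    rw [hfix]
    exact Subgroup.mem_zpowers γ
  set g : L ≃ₐ[F] L := IntermediateField.fixingSubgroupEquiv F ⟨γ, hγ⟩ with hgdef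
  have hres : g.restrictScalars k = γ := by
    ext x
    rfl
  have hg : ∀ σ : L ≃ₐ[F] L, σ ∈ Subgroup.zpowers g := by
    intro σ
    have h1 : σ.restrictScalars k ∈ F.fixingSubgroup := by
      rw [IntermediateField.mem_fixingSubgroup_iff]
      intro x hx
      exact σ.commutes ⟨x, hx⟩
    rw [hfix] at h1
    obtain ⟨i, hi⟩ := h1
    have hi' : γ ^ i = σ.restrictScalars k := hi
    refine ⟨i, ?_⟩
    apply AlgEquiv.restrictScalarsHom_injective k
    change AlgEquiv.restrictScalarsHom k (g ^ i) = _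
    rw [map_zpow, AlgEquiv.restrictScalarsHom_apply, AlgEquiv.restrictScalarsHom_apply, hres, hi']
  obtain ⟨m, hm, hNm, hU⟩ := exists_unr k L N hN
  obtain ⟨Q, hQ, hmQ, h, hh, i, hi⟩ := frob_cyclic g hg m hm
  have hi' : h ^ i = g := hi
  have hQ0 : Q ≠ ⊥ := frob_ne_bot F L Q h hh
  obtain ⟨σ, hσ⟩ := frob_exists k L Q hQ hQ0
  obtain ⟨f, hf, h1, -⟩ := frob_tower k F L m hU Q hQ hmQ σ hσ h hh
  refine ⟨Q, hQ, fun hNQ => hmQ (Ideal.mem_of_dvd Q (Nat.cast_dvd_cast hNm) hNQ), σ, hσ, ?_⟩
  have h2 : γ ∈ Subgroup.zpowers σ := by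
    rw [← hres, ← hi', ← AlgEquiv.restrictScalarsHom_apply, map_zpow,
      AlgEquiv.restrictScalarsHom_apply, h1]
    exact Subgroup.zpow_mem _ (Subgroup.pow_mem _ (Subgroup.mem_zpowers σ) f) i
  obtain ⟨j, hj⟩ := mem_powers_iff_mem_zpowers.2 h2
  exact ⟨j, hj⟩

end Pool.Agent.FRD
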