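import Mathlib
import Pool.Agent.FRD.Fin
import Pool.Agent.FRC.FRB3

/-! # FRD Lift: the powers of Frobenius elements are dense in the absolute Galois group -/

set_option autoImplicit false
set_option linter.unusedSectionVars false

noncomputable section

namespace Pool.Agent.FRD

open NumberField nonZeroDivisors IsDedekindDomain Module Pool.Agent.ARC Pool.Agent.H12
  Pool.Agent.FRC

variable {k : Type} [Field k] [NumberField k]

private theorem frob_lift_galois (L : IntermediateField k (AlgebraicClosure k))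
    [FiniteDimensional k L] [IsGalois k L] (g : GG k) (N : ℕ) (hN : N ≠ 0) :
    ∃ 𝔓 : Ideal (Zb k), 𝔓.IsMaximal ∧ (N : Zb k) ∉ 𝔓 ∧ ∃ σ : GG k, FrobAt 𝔓 (nrm 𝔓) σ ∧
      ∃ j : ℕ, ∀ x ∈ L, (σ ^ j) x = g x := by
  have hNF : NumberField L := NumberField.of_module_finite k L
  obtain ⟨m, hm, hNm, hU⟩ := exists_unr k L N hN
  obtain ⟨Q, hQ, hmQ, σ₀, hσ₀, j, hj⟩ := frob_finite k L (g.restrictNormal L) m hm
  have hQ0 : Q ≠ ⊥ := frob_ne_bot k L Q σ₀ hσ₀
  have hQm : Q.IsMaximal := Ring.DimensionLEOne.maximalOfPrime hQ0 hQ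
  have hker : RingHom.ker (algebraMap (𝓞 L) (Zb k)) ≤ Q := by
    rw [(RingHom.injective_iff_ker_eq_bot _).1 (FaithfulSMul.algebraMap_injective (𝓞 L) (Zb k))]
    exact bot_le
  obtain ⟨𝔓, h𝔓, h𝔓Q⟩ := Ideal.exists_ideal_over_maximal_of_isIntegral (S := Zb k) Q hker
  have hmemQ : ∀ x : 𝓞 L, algebraMap (𝓞 L) (Zb k) x ∈ 𝔓 ↔ x ∈ Q := by
    intro x
    rw [← h𝔓Q, Ideal.mem_comap]
  have hunder : 𝔓.comap (algebraMap (𝓞 k) (Zb k)) = Q.under (𝓞 k) := by
    ext x
    rw [Ideal.mem_comap, Ideal.mem_comap, ← hmemQ]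
    rfl
  have hnrm : nrm 𝔓 = Ideal.absNorm (Q.under (𝓞 k)) := by
    rw [nrm, hunder, Ideal.absNorm_apply, Submodule.cardQuot_apply]
  obtain ⟨σ, hσ⟩ := exists_frobAt h𝔓
  refine ⟨𝔓, h𝔓, ?_, σ, hσ, j, ?_⟩
  · intro hNP
    apply hmQ
    have h1 : (N : 𝓞 L) ∈ Q := by
      rw [← hmemQ, map_natCast]
      exact hNP
    exact Ideal.mem_of_dvd Q (Nat.cast_dvd_cast hNm) h1
  · have hfr : IsFrob k L Q (σ.restrictNormal L) := by
      intro x
      rw [← hmemQ, map_sub, map_pow, ← hnrm]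
      apply hσ (algebraMap (𝓞 L) (Zb k) x) (algebraMap (𝓞 L) (Zb k) ((σ.restrictNormal L) • x))
      exact σ.restrictNormal_commutes L (x : L)
    have huniq := frob_unique k L m hU Q hQ hmQ _ _ hfr hσ₀
    intro x hx
    have h1 : ((σ ^ j).restrictNormal L) = g.restrictNormal L := by
      have h2 : AlgEquiv.restrictNormalHom L (σ ^ j) = (AlgEquiv.restrictNormalHom L σ) ^ j :=
        map_pow _ _ _
      have h3 : AlgEquiv.restrictNormalHom L σ = σ.restrictNormal L := rfl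
      have h4 : AlgEquiv.restrictNormalHom L (σ ^ j) = (σ ^ j).restrictNormal L := rfl
      rw [h3, h4, huniq, hj] at h2
      exact h2
    have h5 := (σ ^ j).restrictNormal_commutes L ⟨x, hx⟩
    have h6 := g.restrictNormal_commutes L ⟨x, hx⟩
    rw [h1] at h5
    exact h5.symm.trans h6

/-- **The density theorem of Frobenius**: for every `g` in the absolute Galois group of the number
field `k`, every finite extension `L` of `k` in the algebraic closure, and every integer `N ≠ 0`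
there is a prime `𝔓` which does not contain `N` and a Frobenius element `σ` at `𝔓` one of whose
powers agrees with `g` on `L`. -/
theorem frob_lift (L : IntermediateField k (AlgebraicClosure k))
    [FiniteDimensional k L] (g : GG k) (N : ℕ) (hN : N ≠ 0) :
    ∃ 𝔓 : Ideal (Zb k), 𝔓.IsMaximal ∧ (N : Zb k) ∉ 𝔓 ∧ ∃ σ : GG k, FrobAt 𝔓 (nrm 𝔓) σ ∧
      ∃ j : ℕ, ∀ x ∈ L, (σ ^ j) x = g x := by
  set M : IntermediateField k (AlgebraicClosure k) :=
    IntermediateField.normalClosure k L (AlgebraicClosure k) with hM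
  have h1 : FiniteDimensional k M := normalClosure.is_finiteDimensional k L (AlgebraicClosure k)
  have h2 : Normal k M := normalClosure.normal k L (AlgebraicClosure k)
  have h3 : IsGalois k M := ⟨⟩
  obtain ⟨𝔓, h𝔓, hNP, σ, hσ, j, hj⟩ := frob_lift_galois M g N hN
  exact ⟨𝔓, h𝔓, hNP, σ, hσ, j, fun x hx => hj x (L.le_normalClosure hx)⟩

/-- The same with a neighbourhood of `g`. -/
theorem frob_nhds (g : GG k) (U : Set (GG k)) (hU : U ∈ nhds g) (N : ℕ) (hN : N ≠ 0) :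
    ∃ 𝔓 : Ideal (Zb k), 𝔓.IsMaximal ∧ (N : Zb k) ∉ 𝔓 ∧ ∃ σ : GG k, FrobAt 𝔓 (nrm 𝔓) σ ∧
      ∃ j : ℕ, σ ^ j ∈ U := by
  have h1 : (fun x : GG k => g * x) ⁻¹' U ∈ nhds (1 : GG k) := by
    have h2 : ContinuousAt (fun x : GG k => g * x) 1 := (continuous_const.mul continuous_id).continuousAt
    apply h2.preimage_mem_nhds
    rw [mul_one]
    exact hU
  rw [krullTopology_mem_nhds_one_iff] at h1
  obtain ⟨L, hL, hLU⟩ := h1
  obtain ⟨𝔓, h𝔓, hNP, σ, hσ, j, hj⟩ := frob_lift L g N hN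
  refine ⟨𝔓, h𝔓, hNP, σ, hσ, j, ?_⟩
  have h3 : g⁻¹ * σ ^ j ∈ (L.fixingSubgroup : Set (GG k)) := by
    rw [SetLike.mem_coe, IntermediateField.mem_fixingSubgroup_iff]
    intro x hx
    rw [AlgEquiv.mul_apply, hj x hx, ← AlgEquiv.mul_apply, inv_mul_cancel, AlgEquiv.one_apply]
  have h4 := hLU h3
  rw [Set.mem_preimage, mul_inv_cancel_left] at h4
  exact h4

/-- The same with an open subgroup. -/
theorem frob_dense (g : GG k) (U : Subgroup (GG k)) (hU : IsOpen (U : Set (GG k))) (N : ℕ)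
    (hN : N ≠ 0) :
    ∃ 𝔓 : Ideal (Zb k), 𝔓.IsMaximal ∧ (N : Zb k) ∉ 𝔓 ∧ ∃ σ : GG k, FrobAt 𝔓 (nrm 𝔓) σ ∧
      ∃ j : ℕ, g⁻¹ * σ ^ j ∈ U := by
  have h1 : (fun x : GG k => g⁻¹ * x) ⁻¹' (U : Set (GG k)) ∈ nhds g := by
    have h2 : Continuous (fun x : GG k => g⁻¹ * x) := continuous_const.mul continuous_id
    refine (hU.preimage h2).mem_nhds ?_
    rw [Set.mem_preimage, inv_mul_cancel]
    exact U.one_mem
  exact frob_nhds g _ h1 N hN

end Pool.Agent.FRD
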