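import Mathlib
import Pool.Agent.FRD.Lift
import Pool.Agent.FRC.SD

/-! # FRD LiftS: the density theorem of Frobenius with the definitions of `FRC.SD` -/

set_option autoImplicit false

noncomputable section

namespace Pool.Agent.FRD

open NumberField Pool.Agent.H12

variable {k : Type} [Field k] [NumberField k]

theorem frob_liftS (L : IntermediateField k (AlgebraicClosure k))
    [FiniteDimensional k L] (g : GG k) (N : ℕ) (hN : N ≠ 0) :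
    ∃ 𝔓 : FRS.Idl k, FRS.IsMax 𝔓 ∧ ¬ FRS.InP 𝔓 (N : FRS.Zb k) ∧ ∃ σ : GG k,
      FRS.FrobAt 𝔓 (FRS.nrm 𝔓) σ ∧ ∃ j : ℕ, ∀ x ∈ L, (σ ^ j) x = g x := by
  obtain ⟨𝔓, h1, h2, σ, h3, j, h4⟩ := frob_lift L g N hN
  exact ⟨𝔓, h1, h2, σ, h3, j, h4⟩

theorem frob_nhdsS (g : GG k) (U : Set (GG k)) (hU : U ∈ nhds g) (N : ℕ) (hN : N ≠ 0) :
    ∃ 𝔓 : FRS.Idl k, FRS.IsMax 𝔓 ∧ ¬ FRS.InP 𝔓 (N : FRS.Zb k) ∧ ∃ σ : GG k,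
      FRS.FrobAt 𝔓 (FRS.nrm 𝔓) σ ∧ ∃ j : ℕ, σ ^ j ∈ U := by
  obtain ⟨𝔓, h1, h2, σ, h3, j, h4⟩ := frob_nhds g U hU N hN
  exact ⟨𝔓, h1, h2, σ, h3, j, h4⟩

theorem frob_denseS (g : GG k) (U : Subgroup (GG k)) (hU : IsOpen (U : Set (GG k))) (N : ℕ)
    (hN : N ≠ 0) :
    ∃ 𝔓 : FRS.Idl k, FRS.IsMax 𝔓 ∧ ¬ FRS.InP 𝔓 (N : FRS.Zb k) ∧ ∃ σ : GG k,
      FRS.FrobAt 𝔓 (FRS.nrm 𝔓) σ ∧ ∃ j : ℕ, g⁻¹ * σ ^ j ∈ U := by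
  obtain ⟨𝔓, h1, h2, σ, h3, j, h4⟩ := frob_dense g U hU N hN
  exact ⟨𝔓, h1, h2, σ, h3, j, h4⟩

end Pool.Agent.FRD
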